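import Pool.Agent.Helper89.GP.GoalsB

/-!
# Two comparisons halve the number of linear extensions: packet XYZ

The XYZ inequality for linear extensions from the XYZ inequality for maps.
-/

namespace Pool.Agent.Helper40.GP

open Finset Pool.Agent.Helper89.GP

variable {n : ℕ}

/-- The number of the linear extensions whose order has the property `q`. -/
noncomputable def cn (R : Fin n → Fin n → Prop) (q : (Fin n → Fin n → Prop) → Prop) : ℕ :=
  Nat.card {σ : Equiv.Perm (Fin n) // (∀ a b, R a b → σ a < σ b) ∧ q fun a b => σ a < σ b}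

theorem sm_bounds (hC : XycStmt) (R : Fin n → Fin n → Prop) (N : ℕ)
    (q : (Fin n → Fin n → Prop) → Prop) :
    N.choose n * cn R q ≤ Sm R N (fun f => q fun a b => f a < f b) ∧
    Sm R N (fun f => q fun a b => f a < f b) ≤
      N.choose n * cn R q + Nat.card {f : Fin n → Fin N // ¬ Function.Injective f} := by
  classical
  have h1 := hC n N (fun r => (∀ a b, R a b → r a b) ∧ q r)
  have h2 : Sm R N (fun f => q fun a b => f a < f b) =
      ((univ.filter fun f : Fin n → Fin N => (∀ a b, R a b → f a < f b) ∧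
        q fun a b => f a < f b)).card := by
    unfold Sm
    congr
  have h3 : Nat.card {f : Fin n → Fin N // Function.Injective f ∧
      ((∀ a b, R a b → f a < f b) ∧ q fun a b => f a < f b)} =
      (univ.filter fun f : Fin n → Fin N => Function.Injective f ∧
      ((∀ a b, R a b → f a < f b) ∧ q fun a b => f a < f b)).card := by
    rw [Nat.card_eq_fintype_card, Fintype.card_subtype]
  have h4 : Nat.card {f : Fin n → Fin N // ¬ Function.Injective f} =
      (univ.filter fun f : Fin n → Fin N => ¬ Function.Injective f).card := by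
    rw [Nat.card_eq_fintype_card, Fintype.card_subtype]
  have h5 : N.choose n * cn R q = (univ.filter fun f : Fin n → Fin N => Function.Injective f ∧
      ((∀ a b, R a b → f a < f b) ∧ q fun a b => f a < f b)).card := by
    rw [← h3]
    exact h1.symm
  rw [h2, h4, h5]
  constructor
  · apply Finset.card_le_card
    intro f hf
    rw [mem_filter] at hf ⊢
    exact ⟨hf.1, hf.2.2⟩
  · refine le_trans (Finset.card_le_card ?_) (Finset.card_union_le _ _)
    intro f hf
    rw [mem_union, mem_filter, mem_filter]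
    rw [mem_filter] at hf
    by_cases h : Function.Injective f
    · exact Or.inl ⟨hf.1, h, hf.2⟩
    · exact Or.inr ⟨hf.1, h⟩

theorem nat_key (n M a b c d : ℕ) (C E N : ℕ) (hC : 0 < C) (hN : N = M * (a + d + 1) + 1 + 2 * n)
    (hE : E * N ≤ M * C) (h : (C * b) * (C * c) ≤ (C * a + E) * (C * d + E)) :
    b * c ≤ a * d := by
  by_contra hcon
  push Not at hcon
  have h1 : a * d + 1 ≤ b * c := hcon
  have h2 : C * C * (a * d + 1) ≤ (C * a + E) * (C * d + E) := by
    calc C * C * (a * d + 1) ≤ C * C * (b * c) := Nat.mul_le_mul_left _ h1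
      _ = (C * b) * (C * c) := by ring
      _ ≤ _ := h
  have h3 : C * C ≤ C * E * (a + d) + E * E := by
    have e1 : C * C * (a * d + 1) = C * C * (a * d) + C * C := by ring
    have e2 : (C * a + E) * (C * d + E) = C * C * (a * d) + (C * E * (a + d) + E * E) := by ring
    rw [e1, e2] at h2
    omega
  have h4 : C * C * (N * N) ≤ C * C * (N * M * (a + d) + M * M) := by
    calc C * C * (N * N) ≤ (C * E * (a + d) + E * E) * (N * N) := Nat.mul_le_mul_right _ h3
      _ = C * (E * N) * N * (a + d) + (E * N) * (E * N) := by ring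
      _ ≤ C * (M * C) * N * (a + d) + (M * C) * (M * C) := by gcongr
      _ = _ := by ring
  have h5 : N * N ≤ N * M * (a + d) + M * M :=
    Nat.le_of_mul_le_mul_left h4 (Nat.mul_pos hC hC)
  have h6 : M ≤ N := by
    rw [hN]
    nlinarith [Nat.zero_le (M * (a + d))]
  have h7 : N * N = N * M * (a + d) + N * M + N * (1 + 2 * n) := by
    conv_lhs => rw [show N * N = N * (M * (a + d + 1) + 1 + 2 * n) from by rw [← hN]]
    ring
  have h8 : M * M ≤ N * M := Nat.mul_le_mul_right _ h6
  have h9 : 0 < N * (1 + 2 * n) := by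
    have : 0 < N := by omega
    positivity
  omega

theorem card_ineq (hF : XyfStmt) (hC : XycStmt) (hN : XynStmt) (R : Fin n → Fin n → Prop)
    (x y z : Fin n) (hxy : x ≠ y) (hzy : z ≠ y) :
    cn R (fun r => r x y ∧ ¬ r z y) * cn R (fun r => ¬ r x y ∧ r z y) ≤
      cn R (fun r => r x y ∧ r z y) * cn R (fun r => ¬ r x y ∧ ¬ r z y) := by
  set a := cn R (fun r => r x y ∧ r z y) with ha
  set b := cn R (fun r => r x y ∧ ¬ r z y) with hb
  set c := cn R (fun r => ¬ r x y ∧ r z y) with hc
  set d := cn R (fun r => ¬ r x y ∧ ¬ r z y) with hd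
  set M : ℕ := n ^ 2 * (2 ^ n * n.factorial) with hM
  set N : ℕ := M * (a + d + 1) + 1 + 2 * n with hNd
  set E : ℕ := Nat.card {f : Fin n → Fin N // ¬ Function.Injective f} with hE
  have hle : n ≤ N := by rw [hNd]; omega
  have hCpos : 0 < N.choose n := Nat.choose_pos hle
  have hpow : N ^ n ≤ 2 ^ n * n.factorial * N.choose n := by
    have h1 : (N + 1 - n) ^ n ≤ N.descFactorial n := Nat.pow_sub_le_descFactorial N n
    have h2 : N.descFactorial n = n.factorial * N.choose n := Nat.descFactorial_eq_factorial_mul_choose N n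
    have h3 : N ≤ 2 * (N + 1 - n) := by omega
    calc N ^ n ≤ (2 * (N + 1 - n)) ^ n := Nat.pow_le_pow_left h3 n
      _ = 2 ^ n * (N + 1 - n) ^ n := by rw [mul_pow]
      _ ≤ 2 ^ n * (n.factorial * N.choose n) := by rw [← h2]; exact Nat.mul_le_mul_left _ h1
      _ = _ := by ring
  have hEN : E * N ≤ M * N.choose n := by
    calc E * N ≤ n ^ 2 * N ^ n := hN n N
      _ ≤ n ^ 2 * (2 ^ n * n.factorial * N.choose n) := Nat.mul_le_mul_left _ hpow
      _ = _ := by rw [hM]; ring
  refine nat_key n M a b c d (N.choose n) E N hCpos hNd hEN ?_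
  have h0 := hF n R x y z N hxy hzy
  have h1 := (sm_bounds hC R N (fun r => r x y ∧ ¬ r z y)).1
  have h2 := (sm_bounds hC R N (fun r => ¬ r x y ∧ r z y)).1
  have h3 := (sm_bounds hC R N (fun r => r x y ∧ r z y)).2
  have h4 := (sm_bounds hC R N (fun r => ¬ r x y ∧ ¬ r z y)).2
  calc N.choose n * b * (N.choose n * c) ≤ _ := Nat.mul_le_mul h1 h2
    _ ≤ _ := h0
    _ ≤ _ := Nat.mul_le_mul h3 h4

theorem Pr_cn (R : Fin n → Fin n → Prop) (q : (Fin n → Fin n → Prop) → Prop)
    (p : Equiv.Perm (Fin n) → Prop) (h : ∀ σ ∈ LX R, p σ ↔ q fun a b => σ a < σ b) :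
    Pr R p = (cn R q : ℝ) / (LX R).card := by
  classical
  rw [Pr_def]
  congr 2
  unfold cn
  rw [Nat.card_eq_fintype_card, Fintype.card_subtype]
  congr 1
  ext σ
  rw [mem_filter, mem_filter, mem_LX]
  constructor
  · rintro ⟨h1, h2⟩
    exact ⟨mem_univ _, h1, (h σ (mem_LX.2 h1)).1 h2⟩
  · rintro ⟨_, h1, h2⟩
    exact ⟨h1, (h σ (mem_LX.2 h1)).2 h2⟩

/-- XYZ. -/
theorem xyz (hF : XyfStmt) (hC : XycStmt) (hN : XynStmt) : XyzStmt := by
  intro n R x y z hxy hyz hxz
  have key := card_ineq hF hC hN R x y z hxy hyz.symm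
  have lt_or : ∀ (σ : Equiv.Perm (Fin n)) {u v : Fin n}, u ≠ v →
      po σ u < po σ v ∨ po σ v < po σ u := fun σ u v h => po_lt_or h
  have e1 : Ms R x y z = (cn R (fun r => r x y ∧ ¬ r z y) : ℝ) / (LX R).card := by
    unfold Ms
    refine Pr_cn R _ _ fun σ _ => ?_
    change _ ↔ po σ x < po σ y ∧ ¬ po σ z < po σ y
    have := lt_or σ hyz
    constructor <;> rintro ⟨h1, h2⟩ <;> exact ⟨h1, by omega⟩
  have e2 : Ms R z y x = (cn R (fun r => ¬ r x y ∧ r z y) : ℝ) / (LX R).card := by
    unfold Ms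
    refine Pr_cn R _ _ fun σ _ => ?_
    change _ ↔ ¬ po σ x < po σ y ∧ po σ z < po σ y
    have := lt_or σ hxy
    constructor <;> rintro ⟨h1, h2⟩ <;> exact ⟨by omega, by omega⟩
  have e3 : Ms R y x z + Ms R y z x =
      (cn R (fun r => ¬ r x y ∧ ¬ r z y) : ℝ) / (LX R).card := by
    rw [← Pr_cn R (fun r => ¬ r x y ∧ ¬ r z y)
      (fun σ => ¬ po σ x < po σ y ∧ ¬ po σ z < po σ y) (fun σ _ => Iff.rfl)]
    unfold Ms
    symm
    apply Pr_add
    · intro σ _
      have h1 := lt_or σ hxy
      have h2 := lt_or σ hyz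
      have h3 := lt_or σ hxz
      omega
    · intro σ _
      omega
  have e4 : Ms R x z y + Ms R z x y =
      (cn R (fun r => r x y ∧ r z y) : ℝ) / (LX R).card := by
    rw [← Pr_cn R (fun r => r x y ∧ r z y)
      (fun σ => po σ x < po σ y ∧ po σ z < po σ y) (fun σ _ => Iff.rfl)]
    unfold Ms
    symm
    apply Pr_add
    · intro σ _
      have h1 := lt_or σ hxy
      have h2 := lt_or σ hyz
      have h3 := lt_or σ hxz
      omega
    · intro σ _
      omega
  rw [e1, e2, e3, e4, div_mul_div_comm, div_mul_div_comm]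
  apply div_le_div_of_nonneg_right _ (by positivity)
  rw [mul_comm (cn R (fun r => ¬ r x y ∧ ¬ r z y) : ℝ)]
  exact_mod_cast key

end Pool.Agent.Helper40.GP
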